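import Mathlib
import Pool.Agent.Helper97.TI.Defs

set_option autoImplicit false
open MvPolynomial

namespace TI

open scoped TensorProduct

/-- derivations of a formally etale extension -/
theorem DER1_ext {A K : Type} [CommRing A] [Field K] [Algebra ℂ A] [Algebra ℂ K] [Algebra A K]
    [IsScalarTower ℂ A K] [Algebra.FormallyEtale A K] (D : Derivation ℂ A K) :
    ∃ D' : Derivation ℂ K K, ∀ a, D' (algebraMap A K a) = D a := by
  refine ⟨((LinearMap.liftBaseChange K D.liftKaehlerDifferential).comp
    (KaehlerDifferential.tensorKaehlerEquivOfFormallyEtale ℂ A K).symm.toLinearMap).compDer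
      (KaehlerDifferential.D ℂ K), fun a => ?_⟩
  simp [KaehlerDifferential.tensorKaehlerEquivOfFormallyEtale_symm_D_algebraMap]

theorem DER1_sum {K : Type} [Field K] [Algebra ℂ K] {n : ℕ} (c : Fin n → K)
    (der : Fin n → Derivation ℂ K K) (f : K) :
    (∑ k, c k • der k) f = ∑ k, c k * der k f := by
  have := map_sum (Derivation.coeFnAddMonoidHom : Derivation ℂ K K →+ (K → K))
    (fun k => c k • der k) Finset.univ
  have h2 : (∑ k, c k • der k) f = (∑ k, (⇑(c k • der k) : K → K)) f := congrFun this f
  rw [h2, Finset.sum_apply]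
  rfl

theorem DER1_unique {A K : Type} [CommRing A] [Field K] [Algebra ℂ A] [Algebra ℂ K] [Algebra A K]
    [IsScalarTower ℂ A K] [Algebra.FormallyEtale A K] (D : Derivation ℂ K K)
    (h : ∀ a, D (algebraMap A K a) = 0) : D = 0 := by
  have h1 : D.liftKaehlerDifferential ∘ₗ
      (KaehlerDifferential.tensorKaehlerEquivOfFormallyEtale ℂ A K).toLinearMap = 0 := by
    apply LinearMap.ext
    intro w
    induction w using TensorProduct.induction_on with
    | zero => simp
    | tmul k w =>
      have hw : w ∈ (⊤ : Submodule A (KaehlerDifferential ℂ A)) := trivial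
      rw [← KaehlerDifferential.span_range_derivation] at hw
      induction hw using Submodule.span_induction with
      | mem w hw =>
        obtain ⟨a, rfl⟩ := hw
        simp [h]
      | zero => simp
      | add x y _ _ hx hy => rw [TensorProduct.tmul_add, map_add, hx, hy]; simp
      | smul a x _ hx =>
        rw [TensorProduct.tmul_smul]
        rw [← algebraMap_smul K a (k ⊗ₜ[A] x), map_smul, hx]; simp
    | add x y hx hy => rw [map_add, hx, hy]; simp
  ext x
  have h2 := LinearMap.congr_fun h1
    ((KaehlerDifferential.tensorKaehlerEquivOfFormallyEtale ℂ A K).symm (KaehlerDifferential.D ℂ K x))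
  simpa using h2

/-- DER1 -/
theorem exists_der {κ : ℕ} {K : Type} [Field K] [Algebra ℂ K] (x : Fin κ → K)
    (hx : IntermediateField.adjoin ℂ (Set.range x) = ⊤) :
    ∃ (n : ℕ) (l : Fin n → Fin κ) (der : Fin n → Derivation ℂ K K),
      IsTranscendenceBasis ℂ (fun j => x (l j)) ∧
      (∀ k j, der k (x (l j)) = if k = j then 1 else 0) ∧
      (∀ (D : Derivation ℂ K K) (f : K), D f = ∑ k, D (x (l k)) * der k f) := by
  classical
  have halg : Algebra.IsAlgebraic (Algebra.adjoin ℂ (Set.range x)) K := by
    constructor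
    intro f
    have hf : f ∈ IntermediateField.adjoin ℂ (Set.range x) := by rw [hx]; trivial
    rw [IntermediateField.mem_adjoin_iff_div] at hf
    obtain ⟨r, hr, s, hs, rfl⟩ := hf
    have hr' : IsAlgebraic (Algebra.adjoin ℂ (Set.range x)) r :=
      isAlgebraic_algebraMap (⟨r, hr⟩ : Algebra.adjoin ℂ (Set.range x))
    have hs' : IsAlgebraic (Algebra.adjoin ℂ (Set.range x)) s :=
      isAlgebraic_algebraMap (⟨s, hs⟩ : Algebra.adjoin ℂ (Set.range x))
    rw [div_eq_mul_inv]
    exact hr'.mul hs'.inv
  obtain ⟨t, ht, hb⟩ := exists_isTranscendenceBasis_subset (R := ℂ) (A := K) (Set.range x)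
  have hfin : Finite t := ((Set.finite_range x).subset ht).to_subtype
  obtain ⟨n, ⟨e⟩⟩ := Finite.exists_equiv_fin t
  choose l hl using fun j => ht (e.symm j).2
  have hl' : (fun j => x (l j)) = (Subtype.val : t → K) ∘ e.symm := by
    funext j; exact hl j
  have hb' : IsTranscendenceBasis ℂ (fun j => x (l j)) := by
    rw [hl']
    exact (isTranscendenceBasis_equiv e.symm).mpr hb
  let algA : Algebra (MvPolynomial (Fin n) ℂ) K :=
    (aeval (fun j => x (l j)) : MvPolynomial (Fin n) ℂ →ₐ[ℂ] K).toRingHom.toAlgebra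
  have hmap : ∀ p : MvPolynomial (Fin n) ℂ, algebraMap (MvPolynomial (Fin n) ℂ) K p =
    aeval (fun j => x (l j)) p := fun p => rfl
  have : IsScalarTower ℂ (MvPolynomial (Fin n) ℂ) K := by
    apply IsScalarTower.of_algebraMap_eq
    intro z
    rw [hmap, MvPolynomial.algebraMap_eq, aeval_C]
  have : FaithfulSMul (MvPolynomial (Fin n) ℂ) K := by
    rw [faithfulSMul_iff_algebraMap_injective]
    exact hb'.1
  let _ : Algebra (FractionRing (MvPolynomial (Fin n) ℂ)) K :=
    FractionRing.liftAlgebra (MvPolynomial (Fin n) ℂ) K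
  have : IsScalarTower (MvPolynomial (Fin n) ℂ) (FractionRing (MvPolynomial (Fin n) ℂ)) K :=
    FractionRing.isScalarTower_liftAlgebra _ _
  have : Algebra.IsAlgebraic (MvPolynomial (Fin n) ℂ) K := by
    have h1 := hb'.isAlgebraic
    refine (Algebra.isAlgebraic_ringHom_iff_of_comp_eq hb'.1.aevalEquiv (RingEquiv.refl K) ?_).mp h1
    apply RingHom.ext
    intro p
    simp [hmap]
  have : Algebra.IsAlgebraic (FractionRing (MvPolynomial (Fin n) ℂ)) K :=
    (IsFractionRing.comap_isAlgebraic_iff (A := MvPolynomial (Fin n) ℂ)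
      (K := FractionRing (MvPolynomial (Fin n) ℂ)) (C := K)).mp inferInstance
  have : Algebra.FormallyEtale (MvPolynomial (Fin n) ℂ) (FractionRing (MvPolynomial (Fin n) ℂ)) :=
    Algebra.FormallyEtale.of_isLocalization (nonZeroDivisors (MvPolynomial (Fin n) ℂ))
  have : Algebra.FormallyEtale (FractionRing (MvPolynomial (Fin n) ℂ)) K :=
    Algebra.FormallyEtale.of_isSeparable _ _
  have : Algebra.FormallyEtale (MvPolynomial (Fin n) ℂ) K :=
    Algebra.FormallyEtale.comp _ (FractionRing (MvPolynomial (Fin n) ℂ)) _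
  have hder : ∀ k : Fin n, ∃ D : Derivation ℂ K K, ∀ j, D (x (l j)) = if k = j then 1 else 0 := by
    intro k
    obtain ⟨D', hD'⟩ := DER1_ext (A := MvPolynomial (Fin n) ℂ) (K := K)
      (mkDerivation ℂ (fun j => if k = j then (1 : K) else 0))
    refine ⟨D', fun j => ?_⟩
    have := hD' (X j)
    rw [hmap, aeval_X, mkDerivation_X] at this
    exact this
  choose der hder using hder
  refine ⟨n, l, der, hb', hder, ?_⟩
  intro D f
  have h0 : D - ∑ k, D (x (l k)) • der k = 0 := by
    apply DER1_unique (A := MvPolynomial (Fin n) ℂ)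
    intro a
    have h1 : (D - ∑ k, D (x (l k)) • der k).compAlgebraMap (MvPolynomial (Fin n) ℂ) = 0 := by
      apply MvPolynomial.derivation_ext
      intro i
      simp [hmap, hder, DER1_sum]
    have h2 := congrArg (fun E : Derivation ℂ (MvPolynomial (Fin n) ℂ) K => E a) h1
    simpa using h2
  have h3 := congrArg (fun E : Derivation ℂ K K => E f) h0
  simp [sub_eq_zero] at h3
  rw [h3, DER1_sum]

end TI
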