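import Mathlib
import Pool.Agent.Helper97.TI.Defs

set_option autoImplicit false
open MvPolynomial

namespace TI

open scoped TensorProduct

/-- derivations of a formally etale extension -/
theorem DER2_ext {A K : Type} [CommRing A] [Field K] [Algebra ℂ A] [Algebra ℂ K] [Algebra A K]
    [IsScalarTower ℂ A K] [Algebra.FormallyEtale A K] (D : Derivation ℂ A K) :
    ∃ D' : Derivation ℂ K K, ∀ a, D' (algebraMap A K a) = D a := by
  refine ⟨((LinearMap.liftBaseChange K D.liftKaehlerDifferential).comp
    (KaehlerDifferential.tensorKaehlerEquivOfFormallyEtale ℂ A K).symm.toLinearMap).compDer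
      (KaehlerDifferential.D ℂ K), fun a => ?_⟩
  simp [KaehlerDifferential.tensorKaehlerEquivOfFormallyEtale_symm_D_algebraMap]

/-- DER2 -/
theorem exists_Dt {K : Type} [Field K] [Algebra ℂ K] (φ : K →ₐ[ℂ] K)
    (hfin : FiniteDimensional φ.fieldRange K) (D : Derivation ℂ K K) :
    ∃ D' : Derivation ℂ K K, ∀ f, D' (φ f) = φ (D f) := by
  let e : K ≃ₐ[ℂ] φ.fieldRange := AlgEquiv.ofInjectiveField φ
  have he : ∀ f, ((e f : φ.fieldRange) : K) = φ f := fun f => rfl
  have he' : ∀ a : φ.fieldRange, φ (e.symm a) = a := by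
    intro a
    rw [← he, AlgEquiv.apply_symm_apply]
  have : Algebra.FormallyEtale φ.fieldRange K := Algebra.FormallyEtale.of_isSeparable _ _
  let D₀ : Derivation ℂ φ.fieldRange K := Derivation.mk'
    (φ.toLinearMap ∘ₗ D.toLinearMap ∘ₗ e.symm.toLinearMap) (by
      intro a b
      simp only [LinearMap.comp_apply, AlgEquiv.toLinearMap_apply, map_mul, AlgHom.toLinearMap_apply,
        Derivation.coeFn_coe, Derivation.leibniz, smul_eq_mul, map_add,
        he', Algebra.smul_def]
      rfl)
  obtain ⟨D', hD'⟩ := DER2_ext D₀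
  refine ⟨D', fun f => ?_⟩
  have h := hD' (e f)
  rw [← he f]
  refine h.trans ?_
  simp [D₀]

end TI
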