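import Mathlib
import Pool.Agent.Helper97.TI.Defs

set_option autoImplicit false
open MvPolynomial

namespace TI

variable {K : Type} [Field K] [Algebra ℂ K]

/-- DUA: dual space.  `V` is a `ℂ`-space with a basis which is a `k`-basis of `K`, `w ≠ 0`. -/
theorem dual_space (k : IntermediateField ℂ K) {δ : ℕ} (v : Module.Basis (Fin δ) k K) (w : K)
    (hw : w ≠ 0) :
    ∃ U : Submodule ℂ K, Module.finrank ℂ U = δ ∧ FiniteDimensional ℂ U ∧
      (∀ g : K, g ∈ U ↔ ∀ j, ∃ z : ℂ, (Algebra.trace k K (g * v j * w) : K) = algebraMap ℂ K z) ∧
      (∀ g g' : K, (∀ j, (Algebra.trace k K (g * v j * w) : K) = Algebra.trace k K (g' * v j * w)) →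
        g = g') := by
  have hfd : FiniteDimensional k K := Module.Finite.of_basis v
  have hinj : ∀ g : K, (∀ j, Algebra.trace k K (g * v j * w) = 0) → g = 0 := by
    intro g hg
    have h1 : g * w = 0 := by
      have hnd := (traceForm_nondegenerate k K).1 (g * w)
      apply hnd
      intro y
      have h2 : Algebra.traceForm k K (g * w) = 0 := by
        apply v.ext
        intro j
        rw [Algebra.traceForm_apply, LinearMap.zero_apply, ← hg j]
        congr 1; ring
      rw [h2]; rfl
    exact (mul_eq_zero.mp h1).resolve_right hw
  let L : K →ₗ[k] (Fin δ → k) :=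
    LinearMap.pi fun j => (Algebra.trace k K).comp (LinearMap.mulRight k (v j * w))
  have hL : ∀ g j, L g j = Algebra.trace k K (g * v j * w) := by
    intro g j
    simp [L, mul_assoc]
  have hLi : Function.Injective L := by
    rw [injective_iff_map_eq_zero]
    intro g hg
    apply hinj
    intro j
    rw [← hL, hg]; rfl
  have hdim : Module.finrank k K = Module.finrank k (Fin δ → k) := by
    rw [Module.finrank_eq_card_basis v, Module.finrank_fin_fun, Fintype.card_fin]
  let E : K ≃ₗ[k] (Fin δ → k) := LinearMap.linearEquivOfInjective L hLi hdim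
  have hE : ∀ g, E g = L g := fun g => rfl
  let ι : (Fin δ → ℂ) →ₗ[ℂ] K :=
    { toFun := fun z => E.symm (fun j => algebraMap ℂ k (z j))
      map_add' := by
        intro x y
        rw [← map_add]
        congr 1
        funext j
        simp
      map_smul' := by
        intro c x
        rw [RingHom.id_apply]
        have : (fun j => algebraMap ℂ k ((c • x) j)) =
          (algebraMap ℂ k c) • (fun j => algebraMap ℂ k (x j)) := by
          funext j; simp
        rw [this, map_smul, algebraMap_smul] }
  have hι : ∀ z, ι z = E.symm (fun j => algebraMap ℂ k (z j)) := fun z => rfl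
  have hιi : Function.Injective ι := by
    intro x y hxy
    rw [hι, hι] at hxy
    have h1 := E.symm.injective hxy
    funext j
    exact (algebraMap ℂ k).injective (congrFun h1 j)
  refine ⟨LinearMap.range ι, ?_, ?_, ?_, ?_⟩
  · rw [LinearMap.finrank_range_of_inj hιi, Module.finrank_fin_fun]
  · infer_instance
  · intro g
    constructor
    · rintro ⟨z, rfl⟩ j
      refine ⟨z j, ?_⟩
      rw [← hL, ← hE, hι, LinearEquiv.apply_symm_apply]
      rfl
    · intro h
      choose z hz using h
      refine ⟨z, ?_⟩
      rw [hι, LinearEquiv.symm_apply_eq]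
      funext j
      rw [hE, hL]
      apply Subtype.ext
      rw [hz j]
      rfl
  · intro g g' h
    have : g - g' = 0 := by
      apply hinj
      intro j
      have h1 := Subtype.ext (h j)
      rw [sub_mul, sub_mul, map_sub, h1, sub_self]
    exact sub_eq_zero.mp this

end TI
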