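import Mathlib
import Pool.Agent.Helper97.TI.Defs

set_option autoImplicit false
open MvPolynomial

namespace TI

variable {K : Type} [Field K] [Algebra ℂ K]

/-- INT: integrality from a finitely generated faithful module -/
theorem int_of_gen {κ n : ℕ} [Algebra (RR κ) K] [IsScalarTower ℂ (RR κ) K]
    (c : Fin n → RR κ) (M : Submodule (RR κ) K) {N : ℕ} (h : Fin N → K) (hh : ∀ i, h i ∈ M)
    (hM : M ≠ ⊥)
    (hgen : ∀ m ∈ M, ∃ P : Fin N → MvPolynomial (Fin n) ℂ,
      m = ∑ i, algebraMap (RR κ) K (aeval c (P i)) * h i) (a : RR κ) :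
    IsIntegral (Algebra.adjoin ℂ (Set.range fun j => algebraMap (RR κ) K (c j)))
      (algebraMap (RR κ) K a) := by
  have hA : ∀ P : MvPolynomial (Fin n) ℂ, algebraMap (RR κ) K (aeval c P) =
      aeval (fun j => algebraMap (RR κ) K (c j)) P := by
    intro P
    exact MvPolynomial.aeval_algebraMap_apply K c P |>.symm
  have hr : ∀ P : MvPolynomial (Fin n) ℂ, algebraMap (RR κ) K (aeval c P) ∈
      Algebra.adjoin ℂ (Set.range fun j => algebraMap (RR κ) K (c j)) := by
    intro P
    rw [hA, Algebra.adjoin_range_eq_range_aeval]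
    exact ⟨P, rfl⟩
  have hr' : ∀ z ∈ Algebra.adjoin ℂ (Set.range fun j => algebraMap (RR κ) K (c j)),
      ∃ r : RR κ, z = algebraMap (RR κ) K r := by
    intro z hz
    rw [Algebra.adjoin_range_eq_range_aeval] at hz
    obtain ⟨P, rfl⟩ := hz
    exact ⟨aeval c P, (hA P).symm⟩
  have hmem : ∀ m : K, m ∈ Submodule.span
      (Algebra.adjoin ℂ (Set.range fun j => algebraMap (RR κ) K (c j))) (Set.range h) ↔ m ∈ M := by
    intro m
    constructor
    · intro hm
      induction hm using Submodule.span_induction with
      | mem x hx => obtain ⟨i, rfl⟩ := hx; exact hh i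
      | zero => exact M.zero_mem
      | add x y _ _ hx hy => exact M.add_mem hx hy
      | smul b x _ hx =>
        obtain ⟨r, hr⟩ := hr' b.1 b.2
        have : b • x = r • x := by
          rw [Algebra.smul_def, Algebra.smul_def, ← hr]; rfl
        rw [this]
        exact M.smul_mem r hx
    · intro hm
      obtain ⟨P, rfl⟩ := hgen m hm
      apply Submodule.sum_mem
      intro i _
      have : algebraMap (RR κ) K (aeval c (P i)) * h i =
        (⟨_, hr (P i)⟩ : Algebra.adjoin ℂ (Set.range fun j => algebraMap (RR κ) K (c j))) • h i := rfl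
      rw [this]
      exact Submodule.smul_mem _ _ (Submodule.subset_span ⟨i, rfl⟩)
  apply isIntegral_of_smul_mem_submodule (M := K) (Submodule.span
      (Algebra.adjoin ℂ (Set.range fun j => algebraMap (RR κ) K (c j))) (Set.range h))
  · intro h0
    apply hM
    rw [Submodule.eq_bot_iff]
    intro m hm
    have := (hmem m).mpr hm
    rw [h0] at this
    simpa using this
  · exact Submodule.fg_span (Set.finite_range h)
  · intro m hm
    rw [hmem] at hm ⊢
    have : algebraMap (RR κ) K a • m = a • m := by
      rw [algebraMap_smul]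
    rw [this]
    exact M.smul_mem a hm

end TI
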