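import Mathlib
import Pool.Agent.Helper97.TI.Defs

set_option autoImplicit false
open MvPolynomial

namespace TI

variable {κ d n : ℕ} {K : Type} [Field K] [Algebra ℂ K] [Algebra (RR κ) K]
  [IsScalarTower ℂ (RR κ) K]

/-- the image of a polynomial is the evaluation at the variables -/
theorem K7b_aeval (a : RR κ) : algebraMap (RR κ) K a = aeval (xb κ K) a := by
  have h : (IsScalarTower.toAlgHom ℂ (RR κ) K) = aeval (xb κ K) := by
    apply MvPolynomial.algHom_ext
    intro i
    rw [aeval_X]; rfl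
  exact DFunLike.congr_fun h a

theorem K7b_surj (S : Sys κ d n K) : Function.Surjective S.ρ := by
  have h1 : ∀ i, xb κ K i ∈ S.ρ.fieldRange := by
    intro i
    have h2 : S.ρ ((2:ℂ)⁻¹ • xb κ K i) = xb κ K i := by
      rw [map_smul, S.hρ, smul_smul, inv_mul_cancel₀ two_ne_zero, one_smul]
    exact ⟨_, h2⟩
  have h2 : ∀ a : RR κ, algebraMap (RR κ) K a ∈ S.ρ.fieldRange := by
    intro a
    rw [K7b_aeval]
    have h3 : aeval (xb κ K) a ∈ Algebra.adjoin ℂ (Set.range (xb κ K)) := by
      rw [Algebra.adjoin_range_eq_range_aeval]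
      exact ⟨a, rfl⟩
    have h4 : Algebra.adjoin ℂ (Set.range (xb κ K)) ≤ S.ρ.fieldRange.toSubalgebra := by
      rw [Algebra.adjoin_le_iff]
      rintro _ ⟨i, rfl⟩
      exact h1 i
    exact h4 h3
  intro f
  obtain ⟨a, b, _, rfl⟩ := S.frac f
  exact S.ρ.fieldRange.div_mem (h2 a) (h2 b)

theorem K7b_lin (S : Sys κ d n K) (y : RR κ) (hy : y.IsHomogeneous 1) :
    S.ρ (algebraMap (RR κ) K y) = (2:ℂ) • algebraMap (RR κ) K y := by
  have h : y ∈ homogeneousSubmodule (Fin κ) ℂ 1 := hy
  rw [homogeneousSubmodule_one_eq_span_X] at h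
  clear hy
  induction h using Submodule.span_induction with
  | mem x hx => obtain ⟨i, rfl⟩ := hx; exact S.hρ i
  | zero => simp
  | add x z _ _ hx hz => rw [map_add, map_add, hx, hz, smul_add]
  | smul c x _ hx =>
    have : algebraMap (RR κ) K (c • x) = c • algebraMap (RR κ) K x :=
      map_smul (IsScalarTower.toAlgHom ℂ (RR κ) K) c x
    rw [this, map_smul, hx, smul_comm]

/-- K7b: trace and scaling -/
theorem trc_ρ (S : Sys κ d n K) (y : Fin n → RR κ) (hy : ∀ j, (y j).IsHomogeneous 1)
    (hc : FiniteDimensional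
      (IntermediateField.adjoin ℂ (Set.range fun j => algebraMap (RR κ) K (y j))) K) (x : K) :
    S.ρ (trc (fun j => algebraMap (RR κ) K (y j)) x) =
      trc (fun j => algebraMap (RR κ) K (y j)) (S.ρ x) := by
  let e : K ≃ₐ[ℂ] K := AlgEquiv.ofBijective S.ρ ⟨S.ρ.toRingHom.injective, K7b_surj S⟩
  have he : ∀ f, e f = S.ρ f := fun f => rfl
  have hmap : (IntermediateField.adjoin ℂ (Set.range fun j => algebraMap (RR κ) K (y j))).map
      e.toAlgHom = IntermediateField.adjoin ℂ (Set.range fun j => algebraMap (RR κ) K (y j)) := by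
    rw [IntermediateField.adjoin_map]
    apply le_antisymm
    · rw [IntermediateField.adjoin_le_iff]
      rintro _ ⟨_, ⟨j, rfl⟩, rfl⟩
      have h1 : e.toAlgHom (algebraMap (RR κ) K (y j)) = (2:ℂ) • algebraMap (RR κ) K (y j) :=
        K7b_lin S (y j) (hy j)
      change e.toAlgHom (algebraMap (RR κ) K (y j)) ∈ _
      rw [h1]
      exact IntermediateField.smul_mem _ (IntermediateField.subset_adjoin _ _ (Set.mem_range_self j))
    · rw [IntermediateField.adjoin_le_iff]
      rintro _ ⟨j, rfl⟩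
      have h1 : e.toAlgHom (algebraMap (RR κ) K (y j)) = (2:ℂ) • algebraMap (RR κ) K (y j) :=
        K7b_lin S (y j) (hy j)
      have h2 : algebraMap (RR κ) K (y j) = (2:ℂ)⁻¹ • e.toAlgHom (algebraMap (RR κ) K (y j)) := by
        rw [h1, smul_smul, inv_mul_cancel₀ two_ne_zero, one_smul]
      change algebraMap (RR κ) K (y j) ∈ _
      rw [h2]
      exact IntermediateField.smul_mem _ (IntermediateField.subset_adjoin _ _
        (Set.mem_image_of_mem _ (Set.mem_range_self j)))
  let e₁ : IntermediateField.adjoin ℂ (Set.range fun j => algebraMap (RR κ) K (y j)) ≃ₐ[ℂ]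
      IntermediateField.adjoin ℂ (Set.range fun j => algebraMap (RR κ) K (y j)) :=
    (IntermediateField.intermediateFieldMap e _).trans (IntermediateField.equivOfEq hmap)
  have he₁ : ∀ a, ((e₁ a : IntermediateField.adjoin ℂ
      (Set.range fun j => algebraMap (RR κ) K (y j))) : K) = e a := fun a => rfl
  have h := Algebra.trace_eq_of_equiv_equiv e₁.toRingEquiv e.toRingEquiv (by
    apply RingHom.ext
    intro a
    exact he₁ a) x
  unfold trc
  rw [h, ← he, ← he₁]
  congr 1
  exact e₁.apply_symm_apply _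

end TI
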